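import Pool.Agent.Helper48.EK.Diff
import Pool.Agent.Helper5.EK.Fub
set_option autoImplicit false
open Complex MeasureTheory Metric Set
open scoped Real ComplexConjugate

/-! Project EK, E2b: the variance inequality. -/

namespace Pool.Agent.Helper93.EK

open Pool.Agent.Helper52.EK Pool.Agent.Helper73.EK Pool.Agent.Helper48.EK

variable {ρ : ℝ → ℝ}

theorem tp : (0:ℝ) < 2 * π := by positivity

/-- the mean of `uu` over the circle -/
theorem mean_uu (h : Dens ρ) {t : ℝ} (ht : t < 0) :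
    ∫ θ in (-π)..π, uu ρ t θ = 2 * π := by
  have cF : Continuous (Function.uncurry fun θ α : ℝ =>
      Pk (Complex.exp (α * I)) (ep t θ) * ρ α) := by
    have h1 : Continuous fun q : ℝ × ℝ => (q.2, q.1) := by fun_prop
    exact ((continuous_Pk ht).comp h1).mul (h.cont.comp continuous_snd)
  unfold uu
  rw [intervalIntegral.integral_const_mul, Helper5.EK.swap2 cF]
  have h3 : ∀ α : ℝ, ∫ θ in (-π)..π, Pk (Complex.exp (α * I)) (ep t θ) * ρ α =
      2 * π * ρ α := by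
    intro α
    rw [intervalIntegral.integral_mul_const, integral_Pk' ht]
  simp_rw [h3]
  rw [intervalIntegral.integral_const_mul, ← mul_assoc, inv_mul_cancel₀ tp.ne', one_mul, h.one]

theorem conj_mul_self_one {ζ : ℂ} (hζ : ‖ζ‖ = 1) : conj ζ * ζ = 1 := by
  rw [mul_comm, Complex.mul_conj, Complex.normSq_eq_norm_sq, hζ]
  norm_num

theorem one_sub_conj {z ζ : ℂ} (hζ : ‖ζ‖ = 1) : 1 - conj z * ζ = conj (ζ - z) * ζ := by
  rw [map_sub, sub_mul, conj_mul_self_one hζ]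

theorem norm_ee {ζ z : ℂ} (hζ : ‖ζ‖ = 1) (hz : ‖z‖ < 1) : ‖ee ζ z‖ = 1 := by
  have h2 : 0 < ‖ζ - z‖ := norm_pos_iff.mpr (sub_ne_zero_of hζ hz)
  rw [ee, one_sub_conj hζ, norm_div, norm_mul, RCLike.norm_conj, hζ, mul_one, div_self h2.ne']

/-- `Pk ee` is a multiple of `KK'` -/
theorem pk_ee {t : ℝ} (ht : t < 0) (θ α : ℝ) :
    ((Pk (Complex.exp (α * I)) (ep t θ) : ℝ) : ℂ) * ee (Complex.exp (α * I)) (ep t θ) =
      ((1 - ‖ep t θ‖ ^ 2 : ℝ) : ℂ) / (2 * ep t θ) * KK' ((t : ℂ) + (θ : ℂ) * I) α := by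
  have hz := norm_ep_lt ht θ
  have hζ := norm_cis α
  have h3 := sub_ne_zero_of hζ hz
  have h5 : conj (Complex.exp (α * I) - ep t θ) ≠ 0 := by rwa [Ne, map_eq_zero]
  have h4 : ((‖Complex.exp (α * I) - ep t θ‖ ^ 2 : ℝ) : ℂ) =
      (Complex.exp (α * I) - ep t θ) * conj (Complex.exp (α * I) - ep t θ) := by
    rw [Complex.mul_conj, Complex.normSq_eq_norm_sq]
  have h6 : ep t θ ≠ 0 := by
    unfold ep
    exact Complex.exp_ne_zero _
  have h7 : KK' ((t : ℂ) + (θ : ℂ) * I) α =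
      2 * Complex.exp (α * I) * ep t θ / (Complex.exp (α * I) - ep t θ) ^ 2 := rfl
  rw [Pk, ee, one_sub_conj hζ, Complex.ofReal_div, h4, h7]
  field_simp

theorem sinh_ep {t : ℝ} (ht : t < 0) (θ : ℝ) :
    ‖((1 - ‖ep t θ‖ ^ 2 : ℝ) : ℂ) / (2 * ep t θ)‖ = -Real.sinh t := by
  have h1 : 0 < 1 - ‖ep t θ‖ ^ 2 := by
    have := norm_ep_lt ht θ
    nlinarith [norm_nonneg (ep t θ)]
  rw [norm_div, norm_mul, Complex.norm_real, Real.norm_of_nonneg h1.le, norm_ep, Real.sinh_eq,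
    Complex.norm_ofNat]
  have h2 := Real.exp_pos t
  have h3 : Real.exp (-t) = (Real.exp t)⁻¹ := Real.exp_neg t
  rw [h3]
  field_simp
  ring

/-- the mean of `ρ Pk ee` -/
noncomputable def DD (ρ : ℝ → ℝ) (t θ : ℝ) : ℂ :=
  ((1 - ‖ep t θ‖ ^ 2 : ℝ) : ℂ) / (2 * ep t θ) * deriv (FF ρ) ((t : ℂ) + (θ : ℂ) * I)

theorem cont_DD (hρ : Continuous ρ) {t : ℝ} (ht : t < 0) : Continuous fun θ => DD ρ t θ := by
  unfold DD
  have h1 : Continuous fun θ => ep t θ := by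
    unfold ep
    fun_prop
  refine Continuous.mul (Continuous.div (by fun_prop) (by fun_prop) fun θ => ?_) ?_
  · have h6 : ep t θ ≠ 0 := by
      unfold ep
      exact Complex.exp_ne_zero _
    simpa using h6
  · exact (cont_dFF hρ).comp_continuous (by fun_prop) fun θ => pt_mem ht θ

theorem cont_pk {t : ℝ} (ht : t < 0) (θ : ℝ) :
    Continuous fun α : ℝ => Pk (Complex.exp (α * I)) (ep t θ) :=
  continuous_Pk_one _ (norm_ep_lt ht θ)

theorem cont_ee {t : ℝ} (ht : t < 0) (θ : ℝ) :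
    Continuous fun α : ℝ => ee (Complex.exp (α * I)) (ep t θ) := by
  unfold ee
  refine Continuous.div (by fun_prop) (by fun_prop) fun α => ?_
  exact sub_ne_zero_of (norm_cis α) (norm_ep_lt ht θ)

theorem int_DD (hρ : Continuous ρ) {t : ℝ} (ht : t < 0) (θ : ℝ) :
    ∫ α in (0:ℝ)..(2 * π), ((ρ α * Pk (Complex.exp (α * I)) (ep t θ) : ℝ) : ℂ) *
      ee (Complex.exp (α * I)) (ep t θ) = 2 * π * DD ρ t θ := by
  have h1 : ∀ α : ℝ, ((ρ α * Pk (Complex.exp (α * I)) (ep t θ) : ℝ) : ℂ) *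
      ee (Complex.exp (α * I)) (ep t θ) = ((1 - ‖ep t θ‖ ^ 2 : ℝ) : ℂ) / (2 * ep t θ) *
        ((ρ α : ℂ) * KK' ((t : ℂ) + (θ : ℂ) * I) α) := by
    intro α
    rw [Complex.ofReal_mul, mul_assoc, pk_ee ht]
    ring
  simp_rw [h1]
  rw [intervalIntegral.integral_const_mul, DD, deriv_FF hρ (pt_mem ht θ), Complex.real_smul]
  have h2 : ((2 * π : ℝ) : ℂ) ≠ 0 := by exact_mod_cast tp.ne'
  push_cast at h2 ⊢
  field_simp

theorem norm_DD (hρ : Continuous ρ) {t : ℝ} (ht : t < 0) (θ : ℝ) :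
    ‖DD ρ t θ‖ ^ 2 = Real.sinh t ^ 2 * (ut ρ t θ ^ 2 + uth ρ t θ ^ 2) := by
  rw [DD, norm_mul, sinh_ep ht, mul_pow, neg_sq, ut_eq hρ ht, uth_eq hρ ht,
    ← Complex.normSq_eq_norm_sq (deriv (FF ρ) _), Complex.normSq_apply]
  ring

/-- the loss at one point -/
theorem loss_eq (h : Dens ρ) {t : ℝ} (ht : t < 0) (θ : ℝ) (b : ℂ) :
    (2 * π)⁻¹ * ∫ α in (0:ℝ)..(2 * π),
      ρ α * (Pk (Complex.exp (α * I)) (ep t θ) *
        ‖ee (Complex.exp (α * I)) (ep t θ) - b‖ ^ 2 / Real.sinh t ^ 2) =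
      (Real.sinh t ^ 2)⁻¹ *
        ((1 + ‖b‖ ^ 2) * uu ρ t θ - 2 * (DD ρ t θ * conj b).re) := by
  have h1 : ∀ α : ℝ, ρ α * (Pk (Complex.exp (α * I)) (ep t θ) *
        ‖ee (Complex.exp (α * I)) (ep t θ) - b‖ ^ 2 / Real.sinh t ^ 2) =
      (Real.sinh t ^ 2)⁻¹ * ((1 + ‖b‖ ^ 2) * (Pk (Complex.exp (α * I)) (ep t θ) * ρ α) -
        2 * ((((ρ α * Pk (Complex.exp (α * I)) (ep t θ) : ℝ) : ℂ) *
      ee (Complex.exp (α * I)) (ep t θ)) * conj b).re) := by
    intro α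
    have h2 : ‖ee (Complex.exp (α * I)) (ep t θ) - b‖ ^ 2 =
        1 + ‖b‖ ^ 2 - 2 * (ee (Complex.exp (α * I)) (ep t θ) * conj b).re := by
      rw [← Complex.normSq_eq_norm_sq, Complex.normSq_sub, Complex.normSq_eq_norm_sq,
        Complex.normSq_eq_norm_sq, norm_ee (norm_cis α) (norm_ep_lt ht θ), one_pow]
    rw [h2, mul_assoc, Complex.re_ofReal_mul]
    ring
  have c1 : Continuous fun α : ℝ => Pk (Complex.exp (α * I)) (ep t θ) * ρ α :=
    (cont_pk ht θ).mul h.cont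
  have c2 : Continuous fun α : ℝ => ((ρ α * Pk (Complex.exp (α * I)) (ep t θ) : ℝ) : ℂ) *
      ee (Complex.exp (α * I)) (ep t θ) :=
    (Complex.continuous_ofReal.comp (h.cont.mul (cont_pk ht θ))).mul (cont_ee ht θ)
  have c3 : Continuous fun α : ℝ => ((((ρ α * Pk (Complex.exp (α * I)) (ep t θ) : ℝ) : ℂ) *
      ee (Complex.exp (α * I)) (ep t θ)) * conj b).re :=
    Complex.continuous_re.comp (c2.mul continuous_const)
  simp_rw [h1]
  rw [intervalIntegral.integral_const_mul, intervalIntegral.integral_sub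
    ((c1.const_mul _).intervalIntegrable _ _) ((c3.const_mul _).intervalIntegrable _ _),
    intervalIntegral.integral_const_mul, intervalIntegral.integral_const_mul]
  have h4 : ∫ α in (0:ℝ)..(2 * π), ((((ρ α * Pk (Complex.exp (α * I)) (ep t θ) : ℝ) : ℂ) *
      ee (Complex.exp (α * I)) (ep t θ)) * conj b).re = 2 * π * (DD ρ t θ * conj b).re := by
    have h5 := Complex.reCLM.intervalIntegral_comp_comm (μ := volume)
      (f := fun α : ℝ => (((ρ α * Pk (Complex.exp (α * I)) (ep t θ) : ℝ) : ℂ) *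
        ee (Complex.exp (α * I)) (ep t θ)) * conj b)
      ((c2.mul (continuous_const (y := conj b))).intervalIntegrable 0 (2 * π))
    simp only [Complex.reCLM_apply] at h5
    rw [h5, intervalIntegral.integral_mul_const, int_DD h.cont ht, mul_assoc,
      show (2 * (π : ℂ)) = ((2 * π : ℝ) : ℂ) by push_cast; ring, Complex.re_ofReal_mul]
  have h6 : ∫ α in (0:ℝ)..(2 * π), Pk (Complex.exp (α * I)) (ep t θ) * ρ α =
      2 * π * uu ρ t θ := by
    rw [uu, ← mul_assoc, mul_inv_cancel₀ tp.ne', one_mul]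
  rw [h4, h6]
  have h7 := tp.ne'
  field_simp

/-- the variance inequality at one point -/
theorem loss_ge (h : Dens ρ) {t : ℝ} (ht : t < 0) (θ : ℝ) (b : ℂ) :
    (Real.sinh t ^ 2)⁻¹ * uu ρ t θ - (ut ρ t θ ^ 2 + uth ρ t θ ^ 2) / uu ρ t θ ≤
      (Real.sinh t ^ 2)⁻¹ *
        ((1 + ‖b‖ ^ 2) * uu ρ t θ - 2 * (DD ρ t θ * conj b).re) := by
  have hs : Real.sinh t ≠ 0 := by
    have := Real.sinh_neg_iff.2 ht
    exact this.ne
  have hs2 : 0 < Real.sinh t ^ 2 := by positivity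
  have hu := Helper73.EK.uu_pos h ht θ
  set u := uu ρ t θ with hu'
  have h1 : ut ρ t θ ^ 2 + uth ρ t θ ^ 2 = (Real.sinh t ^ 2)⁻¹ * ‖DD ρ t θ‖ ^ 2 := by
    rw [norm_DD h.cont ht, ← mul_assoc, inv_mul_cancel₀ hs2.ne', one_mul]
  set D := DD ρ t θ
  have h6 : (D * conj b).re ≤ ‖D‖ * ‖b‖ := by
    refine (Complex.re_le_norm _).trans ?_
    rw [norm_mul, RCLike.norm_conj]
  have h7 : ‖D‖ ^ 2 / u + ‖b‖ ^ 2 * u - 2 * (‖D‖ * ‖b‖) = (‖D‖ - u * ‖b‖) ^ 2 / u := by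
    field_simp
    ring
  have h8 : 0 ≤ (‖D‖ - u * ‖b‖) ^ 2 / u := by positivity
  have h9 : u - ‖D‖ ^ 2 / u ≤ (1 + ‖b‖ ^ 2) * u - 2 * (D * conj b).re := by nlinarith
  rw [h1, mul_div_assoc, ← mul_sub]
  exact mul_le_mul_of_nonneg_left h9 (inv_pos.2 hs2).le

/-- E2b (variance inequality) -/
theorem E2b {ρ : ℝ → ℝ} (h : Dens ρ) {w : ℂ → ℂ}
    (hw : ContinuousOn w {z | 0 < ‖z‖ ∧ ‖z‖ < 1}) {t : ℝ} (ht : t < 0) :
    1 / Real.sinh t ^ 2 - kk ρ w t ≤ A2 ρ t := by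
  have hpi : -π ≤ π := by linarith [Real.pi_pos]
  have cw : Continuous fun θ => w (ep t θ) := by
    refine hw.comp_continuous ?_ fun θ => ⟨?_, norm_ep_lt ht θ⟩
    · unfold ep
      fun_prop
    · rw [norm_ep]
      exact Real.exp_pos t
  have cu : Continuous fun θ => uu ρ t θ := continuous_uu h ht
  have cD := cont_DD h.cont ht
  have cR : Continuous fun θ => (Real.sinh t ^ 2)⁻¹ *
      ((1 + ‖w (ep t θ)‖ ^ 2) * uu ρ t θ - 2 * (DD ρ t θ * conj (w (ep t θ))).re) := by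
    have c1 : Continuous fun θ => conj (w (ep t θ)) := Complex.continuous_conj.comp cw
    have c2 : Continuous fun θ => (DD ρ t θ * conj (w (ep t θ))).re :=
      Complex.continuous_re.comp (cD.mul c1)
    exact (((continuous_const.add (cw.norm.pow 2)).mul cu).sub (c2.const_mul 2)).const_mul _
  have c3 := slice (G := fun t θ => (ut ρ t θ ^ 2 + uth ρ t θ ^ 2) / uu ρ t θ) (cont_i2 h) ht
  have h1 := intervalIntegral.integral_mono_on (μ := volume) hpi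
    (((cu.const_mul ((Real.sinh t ^ 2)⁻¹)).sub c3).intervalIntegrable (-π) π)
    (cR.intervalIntegrable (-π) π) fun θ _ => loss_ge h ht θ (w (ep t θ))
  simp only [Pi.sub_apply] at h1
  rw [intervalIntegral.integral_sub ((cu.const_mul _).intervalIntegrable _ _)
    (c3.intervalIntegrable _ _), intervalIntegral.integral_const_mul, mean_uu h ht] at h1
  have h2 : kk ρ w t = (2 * π)⁻¹ * ∫ θ in (-π)..π, (Real.sinh t ^ 2)⁻¹ *
      ((1 + ‖w (ep t θ)‖ ^ 2) * uu ρ t θ - 2 * (DD ρ t θ * conj (w (ep t θ))).re) := by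
    unfold kk
    congr 1
    exact intervalIntegral.integral_congr fun θ _ => loss_eq h ht θ _
  have h3 := mul_le_mul_of_nonneg_left h1 (inv_pos.2 tp).le
  rw [← h2, mul_sub] at h3
  have h4 : (2 * π)⁻¹ * ((Real.sinh t ^ 2)⁻¹ * (2 * π)) = 1 / Real.sinh t ^ 2 := by
    have h7 := tp.ne'
    rw [one_div]
    field_simp
  rw [h4] at h3
  have h5 : A2 ρ t = (2 * π)⁻¹ * ∫ θ in (-π)..π, (ut ρ t θ ^ 2 + uth ρ t θ ^ 2) / uu ρ t θ := rfl
  rw [h5]
  linarith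

end Pool.Agent.Helper93.EK
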